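import Mathlib

namespace Pool.Agent.Results.MP_6750b5_co.NotNested

/-- A finite undirected graph on the vertices `Fin n`, loops allowed, no multiple edges. -/
structure LGraph (n : ℕ) where
  adj : Fin n → Fin n → Prop
  symm : ∀ a b, adj a b → adj b a

open Classical in
/-- The weight function of a graph: `1` on edges and loops, `0` otherwise. -/
noncomputable def LGraph.wt {n : ℕ} (G : LGraph n) (a b : Fin n) : ℝ :=
  if G.adj a b then 1 else 0

/-- The vertices of the `k`-th symmetric tensor power: the nondecreasing tuples in `[n]^k`. -/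
abbrev Vert (n k : ℕ) : Type := {i : Fin k → Fin n // Monotone i}

/-- `mult i ℓ` is the number of entries of the tuple `i` equal to `ℓ`. -/
def mult {n k : ℕ} (i : Fin k → Fin n) (l : Fin n) : ℕ :=
  (Finset.univ.filter fun t => i t = l).card

/-- The set of all rearrangements of the tuple `i`. -/
def Orb {n k : ℕ} (i : Fin k → Fin n) : Finset (Fin k → Fin n) :=
  Finset.univ.filter fun p => ∃ σ : Equiv.Perm (Fin k), p = i ∘ σ

/-- The multinomial coefficient `k! / (m_1! ... m_n!)` of the tuple `i`. -/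
noncomputable def multin {n k : ℕ} (i : Fin k → Fin n) : ℝ :=
  (Nat.factorial k : ℝ) / ∏ l : Fin n, (Nat.factorial (mult i l) : ℝ)

/-- The edge weights of the `k`-th symmetric tensor power of `G`. -/
noncomputable def tw {n : ℕ} (G : LGraph n) (k : ℕ) (i j : Vert n k) : ℝ :=
  (Real.sqrt (multin i.1 * multin j.1))⁻¹ *
    ∑ p ∈ Orb i.1, ∑ q ∈ Orb j.1, ∏ l : Fin k, G.wt (p l) (q l)

/-- For weights `w` on `V` and `w'` on `V'`, the weighted graph `(V, w)` is a weighted subgraph of
`(V', w')`. -/
def WeightedSubgraph {V V' : Type} (w : V → V → ℝ) (w' : V' → V' → ℝ) : Prop :=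
  ∃ φ : V → V', Function.Injective φ ∧ ∀ x y, w x y ≤ w' (φ x) (φ y)

/-- `G` is bipartite with colour classes given by `c`. -/
def Bip {n : ℕ} (G : LGraph n) (c : Fin n → Bool) : Prop := ∀ a b, G.adj a b → c a ≠ c b

theorem wt_nonneg {n : ℕ} (G : LGraph n) (a b : Fin n) : 0 ≤ G.wt a b := by
  unfold LGraph.wt; split_ifs <;> norm_num

theorem wt_of_adj {n : ℕ} (G : LGraph n) {a b : Fin n} (h : G.adj a b) : G.wt a b = 1 := by
  unfold LGraph.wt
  rw [if_pos h]

theorem multin_pos {n k : ℕ} (i : Fin k → Fin n) : 0 < multin i := by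
  unfold multin
  have h1 : (0 : ℝ) < (Nat.factorial k : ℝ) := by exact_mod_cast Nat.factorial_pos k
  have h2 : (0 : ℝ) < ∏ l : Fin n, (Nat.factorial (mult i l) : ℝ) :=
    Finset.prod_pos fun l _ => by exact_mod_cast Nat.factorial_pos _
  exact div_pos h1 h2

/-- A weight of the power is positive as soon as one pair of rearrangements is adjacent in every
position. -/
theorem tw_pos {n : ℕ} (G : LGraph n) (k : ℕ) (i j : Vert n k) (σ τ : Equiv.Perm (Fin k))
    (h : ∀ l, G.adj (i.1 (σ l)) (j.1 (τ l))) : 0 < tw G k i j := by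
  unfold tw
  refine mul_pos (inv_pos.mpr (Real.sqrt_pos.mpr (mul_pos (multin_pos _) (multin_pos _)))) ?_
  refine Finset.sum_pos' (fun p _ => Finset.sum_nonneg fun q _ =>
    Finset.prod_nonneg fun l _ => wt_nonneg G _ _) ⟨i.1 ∘ σ, ?_, ?_⟩
  · simp only [Orb, Finset.mem_filter, Finset.mem_univ, true_and]
    exact ⟨σ, rfl⟩
  · refine Finset.sum_pos' (fun q _ => Finset.prod_nonneg fun l _ => wt_nonneg G _ _)
      ⟨j.1 ∘ τ, ?_, ?_⟩
    · simp only [Orb, Finset.mem_filter, Finset.mem_univ, true_and]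
      exact ⟨τ, rfl⟩
    · refine Finset.prod_pos fun l _ => ?_
      have h1 : G.wt ((i.1 ∘ σ) l) ((j.1 ∘ τ) l) = 1 := wt_of_adj G (h l)
      rw [h1]
      exact one_pos

/-- The number of entries of the tuple in the first colour class. -/
def cnt {n k : ℕ} (c : Fin n → Bool) (i : Fin k → Fin n) : ℕ :=
  (Finset.univ.filter fun t => c (i t) = true).card

theorem cnt_perm {n k : ℕ} (c : Fin n → Bool) (i : Fin k → Fin n) (σ : Equiv.Perm (Fin k)) :
    cnt c (i ∘ σ) = cnt c i := by
  unfold cnt
  refine Finset.card_bij (fun t _ => σ t) ?_ ?_ ?_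
  · intro t ht
    simpa using ht
  · intro a _ b _ h
    exact σ.injective h
  · intro b hb
    refine ⟨σ.symm b, ?_, by simp⟩
    simpa using hb

/-- A nonzero weight of the `r`-th power of a bipartite graph forces the counts to add up
to `r`. -/
theorem cnt_add {n : ℕ} (G : LGraph n) (c : Fin n → Bool) (hc : Bip G c) (r : ℕ) (i j : Vert n r)
    (h : tw G r i j ≠ 0) : cnt c i.1 + cnt c j.1 = r := by
  unfold tw at h
  have h1 := right_ne_zero_of_mul h
  obtain ⟨p, hp, h2⟩ := Finset.exists_ne_zero_of_sum_ne_zero h1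
  obtain ⟨q, hq, h3⟩ := Finset.exists_ne_zero_of_sum_ne_zero h2
  rw [Finset.prod_ne_zero_iff] at h3
  simp only [Orb, Finset.mem_filter, Finset.mem_univ, true_and] at hp hq
  obtain ⟨σ, rfl⟩ := hp
  obtain ⟨τ, rfl⟩ := hq
  rw [← cnt_perm c i.1 σ, ← cnt_perm c j.1 τ]
  have hadj : ∀ l, G.adj ((i.1 ∘ σ) l) ((j.1 ∘ τ) l) := by
    intro l
    by_contra hn
    apply h3 l (Finset.mem_univ l)
    unfold LGraph.wt
    rw [if_neg hn]
  have hcompl : (Finset.univ.filter fun t => c ((j.1 ∘ τ) t) = true) =
      (Finset.univ.filter fun t => ¬ c ((i.1 ∘ σ) t) = true) := by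
    ext t
    simp only [Finset.mem_filter, Finset.mem_univ, true_and]
    have := hc _ _ (hadj t)
    revert this
    cases c ((i.1 ∘ σ) t) <;> cases c ((j.1 ∘ τ) t) <;> simp
  unfold cnt
  rw [hcompl, Finset.card_filter_add_card_filter_not]
  simp

theorem tw_nonneg {n : ℕ} (G : LGraph n) (k : ℕ) (i j : Vert n k) : 0 ≤ tw G k i j := by
  unfold tw
  exact mul_nonneg (inv_nonneg.mpr (Real.sqrt_nonneg _)) (Finset.sum_nonneg fun p _ =>
    Finset.sum_nonneg fun q _ => Finset.prod_nonneg fun l _ => wt_nonneg G _ _)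

/-- The tuple with `k` entries whose first half is `a` and whose second half is `b`. -/
def half {n : ℕ} (a b : Fin n) (hab : a ≤ b) (k : ℕ) : Vert n k :=
  ⟨fun t => if t.val < k / 2 then a else b, by
    intro s t hst
    have hst' : s.val ≤ t.val := hst
    dsimp only
    split_ifs with h1 h2 h2
    · exact le_rfl
    · exact hab
    · omega
    · exact le_rfl⟩

/-- In an even power of a graph with an edge between distinct vertices some vertex carries a
loop of positive weight. -/
theorem exists_loop {n : ℕ} (G : LGraph n) {a b : Fin n} (hG : G.adj a b) {k : ℕ}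
    (hk : Even k) : ∃ i : Vert n k, 0 < tw G k i i := by
  have main : ∀ a b : Fin n, a ≤ b → G.adj a b → ∃ i : Vert n k, 0 < tw G k i i := by
    intro a b hab hG
    refine ⟨half a b hab k, tw_pos G k _ _ 1 Fin.revPerm ?_⟩
    intro l
    obtain ⟨m, hm⟩ := hk
    have hl := l.isLt
    simp only [half, Equiv.Perm.coe_one, id_eq, Fin.revPerm_apply, Fin.val_rev]
    by_cases h : l.val < k / 2
    · rw [if_pos h, if_neg (by omega)]
      exact hG
    · rw [if_neg h, if_pos (by omega)]
      exact G.symm _ _ hG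
  rcases le_total a b with h | h
  · exact main a b h hG
  · exact main b a h (G.symm _ _ hG)

/-- The four-cycle `0 - 2 - 1 - 3 - 0`, with colour classes `{0, 1}` and `{2, 3}`. -/
def C4 : LGraph 4 where
  adj a b := (a.val < 2 ∧ 2 ≤ b.val) ∨ (b.val < 2 ∧ 2 ≤ a.val)
  symm _ _ h := h.symm

/-- **Main theorem.**
(1) The statement of Q1 is false: there are a graph `G` and `1 ≤ k ≤ r` such that the `k`-th
symmetric tensor power of `G` is not a weighted subgraph of the `r`-th one.
(2) More generally, for every bipartite graph with at least one edge, every even `k` and every odd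
`r`, no map at all from the vertices of the `k`-th power to those of the `r`-th power (injective or
not) satisfies the required inequalities.
(3) For the four-cycle, `k = 2` and every odd `r`, this remains so if the inequalities are required
only for pairs of distinct vertices. -/
theorem result :
    (¬ ∀ (n : ℕ) (G : LGraph n) (k r : ℕ), 1 ≤ k → k ≤ r → WeightedSubgraph (tw G k) (tw G r)) ∧
    (∀ (n : ℕ) (G : LGraph n) (c : Fin n → Bool), Bip G c → (∃ a b, G.adj a b) →
      ∀ k r : ℕ, Even k → Odd r → ∀ φ : Vert n k → Vert n r,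
        ∃ x y, tw G r (φ x) (φ y) < tw G k x y) ∧
    (∀ r : ℕ, Odd r → ∀ φ : Vert 4 2 → Vert 4 r,
        ∃ x y, x ≠ y ∧ tw C4 r (φ x) (φ y) < tw C4 2 x y) := by
  have h2 : ∀ (n : ℕ) (G : LGraph n) (c : Fin n → Bool), Bip G c → (∃ a b, G.adj a b) →
      ∀ k r : ℕ, Even k → Odd r → ∀ φ : Vert n k → Vert n r,
        ∃ x y, tw G r (φ x) (φ y) < tw G k x y := by
    rintro n G c hc ⟨a, b, hab⟩ k r hk hr φ
    obtain ⟨i, hi⟩ := exists_loop G hab hk
    refine ⟨i, i, ?_⟩
    have h0 : tw G r (φ i) (φ i) = 0 := by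
      by_contra hne
      have := cnt_add G c hc r _ _ hne
      obtain ⟨m, hm⟩ := hr
      omega
    rw [h0]
    exact hi
  refine ⟨?_, h2, ?_⟩
  · intro h
    let G : LGraph 2 := ⟨fun a b => a ≠ b, fun _ _ h => h.symm⟩
    obtain ⟨φ, _, hφ⟩ := h 2 G 2 3 (by norm_num) (by norm_num)
    obtain ⟨x, y, hxy⟩ := h2 2 G (fun a => decide (a = 0))
      (by intro a b hab; revert a b; decide) ⟨0, 1, by decide⟩ 2 3 (by decide) (by decide) φ
    exact absurd (hφ x y) (not_le.mpr hxy)
  · intro r hr φ
    by_contra hcon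
    push Not at hcon
    have hbip : Bip C4 (fun a => decide (a.val < 2)) := by
      intro a b hab
      rcases hab with h | h <;> simp <;> omega
    let x1 : Vert 4 2 := ⟨![0, 2], by decide⟩
    let x2 : Vert 4 2 := ⟨![0, 3], by decide⟩
    let x3 : Vert 4 2 := ⟨![1, 2], by decide⟩
    have n12 : x1 ≠ x2 := by
      intro h
      have := congrFun (congrArg Subtype.val h) 1
      revert this; decide
    have n13 : x1 ≠ x3 := by
      intro h
      have := congrFun (congrArg Subtype.val h) 0
      revert this; decide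
    have n23 : x2 ≠ x3 := by
      intro h
      have := congrFun (congrArg Subtype.val h) 0
      revert this; decide
    have p12 : 0 < tw C4 2 x1 x2 := tw_pos C4 2 x1 x2 1 (Equiv.swap 0 1) (by
      intro l; fin_cases l <;> simp [C4, x1, x2])
    have p13 : 0 < tw C4 2 x1 x3 := tw_pos C4 2 x1 x3 1 (Equiv.swap 0 1) (by
      intro l; fin_cases l <;> simp [C4, x1, x3])
    have p23 : 0 < tw C4 2 x2 x3 := tw_pos C4 2 x2 x3 1 (Equiv.swap 0 1) (by
      intro l; fin_cases l <;> simp [C4, x2, x3])
    have e12 := cnt_add C4 _ hbip r _ _ (lt_of_lt_of_le p12 (hcon x1 x2 n12)).ne'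
    have e13 := cnt_add C4 _ hbip r _ _ (lt_of_lt_of_le p13 (hcon x1 x3 n13)).ne'
    have e23 := cnt_add C4 _ hbip r _ _ (lt_of_lt_of_le p23 (hcon x2 x3 n23)).ne'
    obtain ⟨m, hm⟩ := hr
    omega

end Pool.Agent.Results.MP_6750b5_co.NotNested
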